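import Pool.Agent.E8helper30.RG.Stm2

/-!
RG2-WALK (MP_df8ddc_co): a walk made of good edges gives a route between stations.
-/

set_option autoImplicit false

namespace Pool.Agent.E8helper52.RG

open scoped Classical
open Pool.Agent.E8helper30.RG

theorem go_up {x y : ℕ → ℕ} {κ a b m : ℕ} (h : Reach x y κ a b m) (k : ℕ) :
    Reach x y κ a (b + k) (m + k) := by
  induction k with
  | zero => exact h
  | succ k ih => exact Reach.up ih

theorem go_down {x y : ℕ → ℕ} {κ a : ℕ} (k : ℕ) : ∀ (b m : ℕ), Reach x y κ a (b + k) m →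
    Reach x y κ a b (m + k) := by
  induction k with
  | zero => intro b m h; exact h
  | succ k ih =>
    intro b m h
    have h1 : Reach x y κ a (b + k) (m + 1) := Reach.down h
    have h2 := ih b (m + 1) h1
    have h3 : m + 1 + k = m + (k + 1) := by omega
    rwa [h3] at h2

theorem go {x y : ℕ → ℕ} {κ a b m : ℕ} (h : Reach x y κ a b m) (b' : ℕ) :
    Reach x y κ a b' (m + (b - b') + (b' - b)) := by
  rcases le_total b b' with hb | hb
  · have h1 := go_up h (b' - b)
    have h2 : b + (b' - b) = b' := by omega
    have h3 : m + (b' - b) = m + (b - b') + (b' - b) := by omega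
    rwa [h2, h3] at h1
  · have h2 : b = b' + (b - b') := by omega
    rw [h2] at h
    have h1 := go_down (b - b') b' m h
    have h3 : m + (b - b') = m + (b - b') + (b' - b) := by omega
    rwa [h3] at h1

theorem t_WALK : S_WALK := by
  intro n s κ a x y G V U p hs hU
  induction p with
  | nil =>
    intro _
    refine ⟨a, 0, Reach.refl a, ?_⟩
    rw [hU]
    simp
  | @cons V V' U h q ih =>
    intro hE
    obtain ⟨b, m, hr, hm⟩ := ih hU (fun u v huv => hE u v (by
      rw [SimpleGraph.Walk.edges_cons]
      exact List.mem_cons_of_mem _ huv))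
    have hg : GoodEdge x y s κ V.val V'.val := hE V V' (by
      rw [SimpleGraph.Walk.edges_cons]
      exact List.mem_cons_self)
    rw [SimpleGraph.Walk.length_cons]
    rcases hg with hsh | ⟨i, hi, hc | hc⟩
    · refine ⟨b, m, hr, ?_⟩
      omega
    · obtain ⟨hV, hV'⟩ := hc
      refine ⟨x i, _, Reach.yx hi (go hr (y i)), ?_⟩
      rw [Nat.mul_add, Nat.mul_add, Nat.mul_sub, Nat.mul_sub]
      rcases hV' with hV' | hV'
      · rw [hV'] at hm
        rw [hV]
        omega
      · rw [hV'] at hm
        rw [hV]
        omega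
    · obtain ⟨hV', hV⟩ := hc
      refine ⟨y i, _, Reach.xy hi (go hr (x i)), ?_⟩
      rw [Nat.mul_add, Nat.mul_add, Nat.mul_sub, Nat.mul_sub]
      rw [hV'] at hm
      rcases hV with hV | hV
      · rw [hV]
        omega
      · rw [hV]
        omega

end Pool.Agent.E8helper52.RG
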